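import Pool.Agent.Helper92.Ru.GoalsW

/-!
# Packet W5 (`ExtractS`) for MP_d1d051_nt
-/

set_option autoImplicit false

open MvPolynomial

namespace Pool.Agent.Helper6.Ru

open Pool.Agent.Helper92.Ru

variable {k : Type} [Field k] {d n q : ℕ}

theorem MHom.totalDegree_le {m : ℕ} {f : BB k d n} (hf : MHom m f) : f.totalDegree ≤ d * m := by
  classical
  unfold MvPolynomial.totalDegree
  refine Finset.sup_le ?_
  intro e he
  have h1 : (e.sum fun _ x => x) = ∑ p : Fin d × Fin (n + 1), e p := by
    rw [Finsupp.sum_fintype]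
    intro i
    rfl
  rw [h1, Fintype.sum_prod_type]
  have h2 : ∀ j : Fin d, ∑ i : Fin (n + 1), e (j, i) = m := hf e he
  simp only [h2]
  simp

theorem Nl_totalDegree_le (a : Fin (n + 1) → k) : (Nl d a : BB k d n).totalDegree ≤ d := by
  classical
  unfold Nl
  refine (MvPolynomial.totalDegree_finsetProd _ _).trans ?_
  refine (Finset.sum_le_sum (g := fun _ => 1) ?_).trans (by simp)
  intro j _
  refine MvPolynomial.totalDegree_finsetSum_le ?_
  intro t _
  refine (MvPolynomial.totalDegree_mul _ _).trans ?_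
  rw [MvPolynomial.totalDegree_C]
  simp

theorem Rm_le (m : ℕ) : Rm k d n m ≤ restrictTotalDegree (Fin d × Fin (n + 1)) k (d * m) := by
  intro f hf
  rw [mem_restrictTotalDegree]
  exact MHom.totalDegree_le hf.1

theorem Fil_le (a : Fin q → Fin (n + 1) → k) (lam : Fin q → ℕ) (t m : ℕ) :
    Fil d a lam t m ≤ restrictTotalDegree (Fin d × Fin (n + 1)) k (d * m) := by
  classical
  unfold Fil
  rw [Submodule.span_le]
  rintro f ⟨α, g, h1, _, h3, rfl⟩
  rw [SetLike.mem_coe, mem_restrictTotalDegree]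
  refine (MvPolynomial.totalDegree_mul _ _).trans ?_
  have h4 : g.totalDegree ≤ d * (m - ∑ i, α i) := MHom.totalDegree_le h3.1
  have h5 : (∏ i, Nl d (a i) ^ α i : BB k d n).totalDegree ≤ ∑ i, α i * d := by
    refine (MvPolynomial.totalDegree_finsetProd _ _).trans ?_
    refine Finset.sum_le_sum ?_
    intro i _
    refine (MvPolynomial.totalDegree_pow _ _).trans ?_
    exact Nat.mul_le_mul_left _ (Nl_totalDegree_le (a i))
  calc (∏ i, Nl d (a i) ^ α i : BB k d n).totalDegree + g.totalDegree
      ≤ ∑ i, α i * d + d * (m - ∑ i, α i) := add_le_add h5 h4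
    _ = d * (∑ i, α i + (m - ∑ i, α i)) := by
        rw [← Finset.sum_mul]; ring
    _ = d * m := by rw [Nat.add_sub_cancel' h1]

theorem Rm_le_Fil (a : Fin q → Fin (n + 1) → k) (lam : Fin q → ℕ) (m : ℕ) :
    Rm k d n m ≤ Fil d a lam 0 m := by
  intro f hf
  unfold Fil
  refine Submodule.subset_span ?_
  refine ⟨fun _ => 0, f, by simp, by simp, by simpa using hf, by simp⟩

theorem Fil_anti (a : Fin q → Fin (n + 1) → k) (lam : Fin q → ℕ) {t t' : ℕ} (h : t ≤ t') (m : ℕ) :
    Fil d a lam t' m ≤ Fil d a lam t m := by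
  unfold Fil
  refine Submodule.span_mono ?_
  rintro f ⟨α, g, h1, h2, h3, h4⟩
  exact ⟨α, g, h1, h.trans h2, h3, h4⟩

theorem finrank_map_mono {V : Type} [AddCommGroup V] [Module k V] (φ : BB k d n →ₗ[k] V)
    {P Q W : Submodule k (BB k d n)} [FiniteDimensional k W] (h : P ≤ Q) (hQ : Q ≤ W) :
    Module.finrank k (P.map φ) ≤ Module.finrank k (Q.map φ) := by
  have h1 : Q.map φ ≤ W.map φ := Submodule.map_mono hQ
  have h2 : FiniteDimensional k (Q.map φ) :=
    Submodule.finiteDimensional_of_le h1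
  exact Submodule.finrank_mono (Submodule.map_mono h)

/-- **W5** from **W3**. -/
theorem extractS (hE : Extract) : ExtractS := by
  intro k _ _ d n q a hd hGP V _ _ φ z β m hqm hcard
  have hW : FiniteDimensional k (restrictTotalDegree (Fin d × Fin (n + 1)) k (d * m)) := by
    infer_instance
  set K : ℕ := β * (m - q) with hK
  set A' : ℕ := m * ∑ i, (z i - β) with hA'
  set r : ℕ → ℕ := fun t => Module.finrank k ((Fil d a z t m).map φ) with hr
  -- size of the range
  have hA : K + A' ≤ m * ∑ i, z i := by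
    obtain ⟨i0, hi0⟩ : (Finset.univ.filter (fun i => β ≤ z i)).Nonempty := by
      rw [← Finset.card_pos]; omega
    have hi1 : β ≤ z i0 := (Finset.mem_filter.1 hi0).2
    have h1 : β + ∑ i, (z i - β) ≤ ∑ i, z i := by
      rw [← Finset.add_sum_erase _ _ (Finset.mem_univ i0),
        ← Finset.add_sum_erase _ z (Finset.mem_univ i0)]
      have h2 : ∑ i ∈ Finset.univ.erase i0, (z i - β) ≤ ∑ i ∈ Finset.univ.erase i0, z i :=
        Finset.sum_le_sum fun i _ => Nat.sub_le _ _
      omega
    calc K + A' ≤ m * β + m * ∑ i, (z i - β) := by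
          have : K ≤ m * β := by
            rw [hK, mul_comm m β]
            exact Nat.mul_le_mul_left _ (Nat.sub_le _ _)
          omega
      _ = m * (β + ∑ i, (z i - β)) := by ring
      _ ≤ m * ∑ i, z i := Nat.mul_le_mul_left _ h1
  -- the two comparisons
  have hlow : ∀ t ∈ Finset.Icc 1 K, Module.finrank k ((Rm k d n m).map φ) ≤ r t := by
    intro t ht
    have ht' : t ≤ K := (Finset.mem_Icc.1 ht).2
    refine finrank_map_mono φ ?_ (Fil_le a z t m)
    refine (Rm_le_Fil a (fun i => z i - β) m).trans ?_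
    have h3 := hE k d n q a hd hGP z β m 0 hqm hcard
    rw [zero_add] at h3
    exact h3.trans (Fil_anti a z ht' m)
  have hhigh : ∀ t, Module.finrank k ((Fil d a (fun i => z i - β) t m).map φ) ≤ r (t + K) := by
    intro t
    refine finrank_map_mono φ ?_ (Fil_le a z (t + K) m)
    exact hE k d n q a hd hGP z β m t hqm hcard
  -- assemble
  have hsplit : ∑ t ∈ Finset.Icc 1 (K + A'), r t =
      ∑ t ∈ Finset.Icc 1 K, r t + ∑ t ∈ Finset.Icc 1 A', r (t + K) := by
    have e1 : ∀ N : ℕ, Finset.Icc 1 N = Finset.Ioc 0 N := fun N => by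
      ext x; simp [Finset.mem_Icc, Finset.mem_Ioc]; omega
    rw [e1, e1, e1]
    rw [← Finset.sum_Ioc_consecutive r (Nat.zero_le K) (Nat.le_add_right K A')]
    congr 1
    have : Finset.Ioc K (K + A') = (Finset.Ioc 0 A').map (addRightEmbedding K) := by
      ext x
      simp only [Finset.mem_Ioc, Finset.mem_map, addRightEmbedding_apply]
      constructor
      · rintro ⟨h1, h2⟩
        exact ⟨x - K, ⟨by omega, by omega⟩, by omega⟩
      · rintro ⟨y, ⟨h1, h2⟩, rfl⟩
        omega
    rw [this, Finset.sum_map]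
    rfl
  calc K * Module.finrank k ((Rm k d n m).map φ) + Ssum d a φ (fun i => z i - β) m
      ≤ ∑ t ∈ Finset.Icc 1 K, r t + ∑ t ∈ Finset.Icc 1 A', r (t + K) := by
        refine add_le_add ?_ ?_
        · calc K * Module.finrank k ((Rm k d n m).map φ)
              = ∑ t ∈ Finset.Icc 1 K, Module.finrank k ((Rm k d n m).map φ) := by
                simp
            _ ≤ _ := Finset.sum_le_sum hlow
        · exact Finset.sum_le_sum fun t _ => hhigh t
    _ = ∑ t ∈ Finset.Icc 1 (K + A'), r t := hsplit.symm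
    _ ≤ ∑ t ∈ Finset.Icc 1 (m * ∑ i, z i), r t :=
        Finset.sum_le_sum_of_subset (Finset.Icc_subset_Icc le_rfl hA)
    _ = Ssum d a φ z m := rfl

end Pool.Agent.Helper6.Ru
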